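import Pool.Agent.H91.RF.TargetsK

/-!
# MP_609556_an, module E1: monotonicity up to `exp (-(M t))` in a small cone of directions
-/

open MeasureTheory Set Filter Topology Metric
open Pool.Agent.H29.TF (hk P)
open Pool.Agent.H91.RD Pool.Agent.H91.RF

namespace Pool.Agent.H33.RF.E1

/-- Points of `U` on the far side of the hyperplane through `y` orthogonal to `e` are far away. -/
theorem far {N : ℕ} {U : Set (E N)} {e4 R4 δ0 η b t : ℝ} (hb : 0 < b) (ht : 0 < t)
    (hη4 : η ≤ 1 / 4) (hηb : η ≤ b / 4) (hδ0 : 0 < δ0) (hδ8 : δ0 ≤ 1 / 8)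
    (hsum : e4 + η ≤ δ0)
    (hC : ∀ x : E N, R4 ≤ infDist x U → ∀ ξ ∈ closure U, dist x ξ = infDist x U →
      ∀ y ∈ U, inner ℝ (x - ξ) (y - ξ) ≤ e4 * ‖x - ξ‖ * ‖y - ξ‖)
    {x e y y' : E N} (hN : NDir U η x e) (hd : b * t ≤ infDist x U) (hR : R4 ≤ b * t)
    (hy : dist y x ≤ η * t) (hy' : y' ∈ U) (hin : inner ℝ y e ≤ inner ℝ y' e) :
    b / (4 * δ0) * t ≤ dist y y' := by
  obtain ⟨he, ξ, e0, hD, hee⟩ := hN
  obtain ⟨hmem, hnear, hpos, hunit, heq⟩ := hD
  set d := infDist x U with hdd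
  have hC1 := hC x (hR.trans hd) ξ hmem hnear y' hy'
  have hnx : ‖x - ξ‖ = d := by rw [← dist_eq_norm, hnear]
  rw [hnx, heq, inner_smul_left] at hC1
  have hC2 : inner ℝ e0 (y' - ξ) ≤ e4 * ‖y' - ξ‖ := by
    have h1 : d * inner ℝ e0 (y' - ξ) ≤ d * (e4 * ‖y' - ξ‖) := by
      have h2 : (starRingEnd ℝ) d = d := rfl
      rw [h2] at hC1
      calc d * inner ℝ e0 (y' - ξ) ≤ e4 * d * ‖y' - ξ‖ := hC1
        _ = d * (e4 * ‖y' - ξ‖) := by ring
    exact le_of_mul_le_mul_left h1 hpos
  -- upper bound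
  have hU1 : inner ℝ (y' - ξ) e ≤ δ0 * ‖y' - ξ‖ := by
    have h1 : inner ℝ (y' - ξ) e = inner ℝ e0 (y' - ξ) + inner ℝ (y' - ξ) (e - e0) := by
      rw [real_inner_comm (y' - ξ) e0, ← inner_add_right]
      congr 1
      abel
    have h2 : inner ℝ (y' - ξ) (e - e0) ≤ ‖y' - ξ‖ * ‖e - e0‖ := real_inner_le_norm _ _
    have h3 : ‖y' - ξ‖ * ‖e - e0‖ ≤ ‖y' - ξ‖ * η := by gcongr
    have h4 : (e4 + η) * ‖y' - ξ‖ ≤ δ0 * ‖y' - ξ‖ := by gcongr
    rw [h1]
    nlinarith
  -- lower bound
  have hL1 : d / 2 ≤ inner ℝ (y' - ξ) e := by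
    have h1 : inner ℝ (y' - ξ) e = (inner ℝ y' e - inner ℝ y e) + inner ℝ (y - x) e
        + inner ℝ (x - ξ) e := by
      rw [← inner_sub_left, ← inner_add_left, ← inner_add_left]
      congr 1
      abel
    have h2 : -(η * t) ≤ inner ℝ (y - x) e := by
      have h3 : |inner ℝ (y - x) e| ≤ ‖y - x‖ * ‖e‖ := abs_real_inner_le_norm _ _
      rw [he, mul_one, ← dist_eq_norm] at h3
      have h4 := neg_le_of_abs_le h3
      linarith
    have h5 : inner ℝ (x - ξ) e ≥ d * (1 - η) := by
      rw [heq, inner_smul_left]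
      have h6 : inner ℝ e0 e = 1 + inner ℝ e0 (e - e0) := by
        rw [inner_sub_right, real_inner_self_eq_norm_sq, hunit]
        ring
      have h7 : |inner ℝ e0 (e - e0)| ≤ ‖e0‖ * ‖e - e0‖ := abs_real_inner_le_norm _ _
      rw [hunit, one_mul] at h7
      have h8 := neg_le_of_abs_le h7
      have h9 : (starRingEnd ℝ) d = d := rfl
      rw [h9, h6]
      apply mul_le_mul_of_nonneg_left _ hpos.le
      linarith
    have h10 : η * t ≤ d / 4 := by
      calc η * t ≤ b / 4 * t := by gcongr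
        _ = b * t / 4 := by ring
        _ ≤ d / 4 := by linarith
    have h11 : d * η ≤ d * (1 / 4) := by gcongr
    rw [h1]
    nlinarith
  have hbig : d / 2 ≤ δ0 * ‖y' - ξ‖ := hL1.trans hU1
  have hbig2 : d / (2 * δ0) ≤ ‖y' - ξ‖ := by
    rw [div_le_iff₀ (by positivity)]
    linarith
  have htri : ‖y' - ξ‖ ≤ dist y y' + d + η * t := by
    have h1 : y' - ξ = -(y - y') + (x - ξ) + (y - x) := by abel
    calc ‖y' - ξ‖ = ‖-(y - y') + (x - ξ) + (y - x)‖ := by rw [← h1]
      _ ≤ ‖-(y - y') + (x - ξ)‖ + ‖y - x‖ := norm_add_le _ _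
      _ ≤ ‖-(y - y')‖ + ‖x - ξ‖ + ‖y - x‖ := by gcongr; exact norm_add_le _ _
      _ ≤ dist y y' + d + η * t := by
        rw [norm_neg, ← dist_eq_norm, hnx, ← dist_eq_norm y x]
        linarith
  -- conclusion
  have h1 : b / (4 * δ0) * t = (b * t) * (1 / (4 * δ0)) := by ring
  have h2 : (2 : ℝ) ≤ 1 / (4 * δ0) := by
    rw [le_div_iff₀ (by positivity)]
    linarith
  have h3 : d / (2 * δ0) = d * (1 / (4 * δ0)) * 2 := by field_simp; norm_num
  set q := 1 / (4 * δ0) with hq
  have hbt : 0 < b * t := mul_pos hb ht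
  have h10 : η * t ≤ b * t := by
    have : η ≤ b := by linarith
    gcongr
  rw [h1]
  rw [h3] at hbig2
  -- d*q*2 ≤ dist + d + ηt ; want b t q ≤ dist
  have h12 : d * q * 2 - d - b * t ≤ dist y y' := by linarith
  have h13 : b * t * q ≤ d * q * 2 - d - b * t := by
    have h14 : b * t * (2 * q - 1) ≤ d * (2 * q - 1) := by
      apply mul_le_mul_of_nonneg_right hd
      linarith
    have h15 : b * t * 2 ≤ b * t * q := by gcongr
    nlinarith
  linarith

/-- mean value inequality along `e` -/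
theorem mvt {N : ℕ} {g : E N → ℝ} (hg : ContDiff ℝ 2 g) {C : ℝ} {y e : E N} (he : ‖e‖ = 1)
    (hC : ∀ x x', ‖fderiv ℝ g x - fderiv ℝ g x'‖ ≤ C * ‖x - x'‖) (hC0 : 0 ≤ C) {r : ℝ}
    (hr : 0 < r) : r * fderiv ℝ g y e - C * r ^ 2 ≤ g (y + r • e) - g y := by
  have hd : Differentiable ℝ g := hg.differentiable (by norm_num)
  have hder : ∀ θ : ℝ, HasDerivAt (fun θ : ℝ => g (y + θ • e)) (fderiv ℝ g (y + θ • e) e) θ := by
    intro θ
    have h1 : HasDerivAt (fun θ : ℝ => y + θ • e) e θ := by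
      have h2 : HasDerivAt (fun θ : ℝ => θ • e) ((1 : ℝ) • e) θ :=
        (hasDerivAt_id θ).smul_const e
      rw [one_smul] at h2
      exact h2.const_add y
    exact (hd (y + θ • e)).hasFDerivAt.comp_hasDerivAt θ h1
  obtain ⟨θ, hθ, hθe⟩ := exists_hasDerivAt_eq_slope (fun θ : ℝ => g (y + θ • e))
    (fun θ => fderiv ℝ g (y + θ • e) e) hr
    (fun θ _ => (hder θ).continuousAt.continuousWithinAt) (fun θ _ => hder θ)
  simp only [zero_smul, add_zero, sub_zero] at hθe
  have h3 : g (y + r • e) - g y = r * fderiv ℝ g (y + θ • e) e := by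
    rw [hθe]
    field_simp
  rw [h3]
  have h4 : |(fderiv ℝ g (y + θ • e) - fderiv ℝ g y) e| ≤ C * r := by
    calc |(fderiv ℝ g (y + θ • e) - fderiv ℝ g y) e|
        ≤ ‖fderiv ℝ g (y + θ • e) - fderiv ℝ g y‖ * ‖e‖ := by
          rw [← Real.norm_eq_abs]
          exact ContinuousLinearMap.le_opNorm _ _
      _ ≤ C * ‖(y + θ • e) - y‖ * 1 := by
          rw [he]
          gcongr
          exact hC _ _
      _ = C * θ := by
          rw [add_sub_cancel_left, norm_smul, he, Real.norm_eq_abs, abs_of_pos hθ.1]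
          ring
      _ ≤ C * r := by
          have := hθ.2.le
          gcongr
  have h5 := neg_le_of_abs_le h4
  rw [sub_apply] at h5
  have h6 : r * (fderiv ℝ g y e - C * r) ≤ r * fderiv ℝ g (y + θ • e) e := by
    apply mul_le_mul_of_nonneg_left _ hr.le
    linarith
  nlinarith

/-- **[E1]** -/
theorem e1 (hODD : T_ODD) (hTAIL : T_TAIL) (hLINU : T_LINU) :
    Pool.Agent.H91.RF.T_E1 := by
  intro N f K U u hS M hM b hb
  obtain ⟨_, _, _, C, hC⟩ := hLINU N f K U u hS.reac hS.lip hS.sol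
  have hK0 := hS.lip.K0
  have hC0 : 0 ≤ C := (norm_nonneg _).trans (hC 1 le_rfl 0).1
  -- the constants
  set B := K + 2 * M + 3 with hB
  have hB0 : 0 < B := by positivity
  set δ0 := min (1 / 8) (b / (16 * √B)) with hδ
  have hsB : 0 < √B := Real.sqrt_pos.2 hB0
  have hδ0 : 0 < δ0 := by
    apply lt_min (by norm_num)
    positivity
  have hδ8 : δ0 ≤ 1 / 8 := min_le_left _ _
  obtain ⟨R4, hR4, hC4⟩ := hS.condC (δ0 / 2) (by positivity)
  set η := min (min (δ0 / 2) (1 / 4)) (b / 4) with hη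
  have hη0 : 0 < η := by
    apply lt_min (lt_min (by positivity) (by norm_num))
    positivity
  have hηδ : η ≤ δ0 / 2 := (min_le_left _ _).trans (min_le_left _ _)
  have hη4 : η ≤ 1 / 4 := (min_le_left _ _).trans (min_le_right _ _)
  have hηb : η ≤ b / 4 := min_le_right _ _
  set D := b / (4 * δ0) with hD
  have hD0 : 0 < D := by positivity
  have hDB : B ≤ D ^ 2 / 16 := by
    have h1 : 4 * √B ≤ D := by
      rw [hD, le_div_iff₀ (by positivity)]
      have h2 : δ0 ≤ b / (16 * √B) := min_le_right _ _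
      rw [le_div_iff₀ (by positivity)] at h2
      linarith
    have h3 : (4 * √B) ^ 2 ≤ D ^ 2 := by gcongr
    rw [mul_pow, Real.sq_sqrt hB0.le] at h3
    linarith
  set A2 : ℝ := (1 / 2 : ℝ) ^ (-(N : ℝ) / 2) with hA2
  have hA20 : 0 < A2 := Real.rpow_pos_of_pos (by norm_num) _
  refine ⟨η, hη0, max (max 2 (R4 / b)) (max (4 / D) (max A2 (1 + C))), by positivity, ?_⟩
  intro t ht x e hN hd s hs y hy
  have ht2 : 2 ≤ t := (le_max_left _ _).trans ((le_max_left _ _).trans ht)
  have htR : R4 ≤ b * t := by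
    have h1 : R4 / b ≤ t := (le_max_right _ _).trans ((le_max_left _ _).trans ht)
    rw [div_le_iff₀ hb] at h1
    linarith
  have htD : 4 ≤ D * t := by
    have h1 : 4 / D ≤ t := (le_max_left _ _).trans ((le_max_right _ _).trans ht)
    rw [div_le_iff₀ hD0] at h1
    linarith
  have htA : A2 ≤ t :=
    (le_max_left _ _).trans ((le_max_right _ _).trans ((le_max_right _ _).trans ht))
  have htC : 1 + C ≤ t :=
    (le_max_right _ _).trans ((le_max_right _ _).trans ((le_max_right _ _).trans ht))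
  have ht0 : 0 < t := by linarith
  have hs1 : 1 ≤ s := by
    have h1 : (1 - η) * t ≤ s := hs.1
    nlinarith
  have hs0 : 0 < s := by linarith
  have hst : s ≤ t := hs.2
  have he : ‖e‖ = 1 := hN.1
  set r := Real.exp (-((M + 1) * t)) with hr
  have hr0 : 0 < r := Real.exp_pos _
  have hr1 : r ≤ 1 := by
    rw [hr, Real.exp_le_one_iff]
    have : 0 < (M + 1) * t := by positivity
    linarith
  set b' := inner ℝ y e + r / 2 with hb'
  have hrfl : rfl1 e b' y = y + r • e := by
    unfold rfl1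
    have h1 : 2 * (inner ℝ y e - b') = -r := by rw [hb']; ring
    rw [h1, neg_smul, sub_neg_eq_add]
  -- the reflection inequality
  have hodd := hODD N f K K 0 s (lift0 U u) e b' hS.lip hs0
    (fun p q hp hpq hq => by
      have h1 := (abs_le.1 (hS.lip.lip q p)).2
      rwa [abs_of_nonneg (by linarith : (0 : ℝ) ≤ q - p)] at h1)
    hS.sol.mild hS.sol.rng he y (by rw [hb']; linarith)
  rw [hrfl, sub_zero] at hodd
  have hl1 : lift0 U u s = u s := by
    unfold lift0
    rw [if_neg (not_le.2 hs0)]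
  have hl0 : lift0 U u 0 = chi U := by
    unfold lift0
    rw [if_pos le_rfl]
  rw [hl1, hl0] at hodd
  -- the Gaussian tail
  set g : E N → ℝ := {y | b' < inner ℝ y e}.indicator (chi U) with hg
  have hmeasS : MeasurableSet {y : E N | b' < inner ℝ y e} :=
    (isOpen_lt continuous_const (by fun_prop)).measurableSet
  have hchi : Measurable (chi U) := by
    unfold chi
    exact measurable_const.indicator hS.sol.meas
  have hchi01 : ∀ z, 0 ≤ chi U z ∧ chi U z ≤ 1 := by
    intro z
    unfold chi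
    by_cases hz : z ∈ U
    · rw [indicator_of_mem hz]; exact ⟨by norm_num, by norm_num⟩
    · rw [indicator_of_notMem hz]; exact ⟨by norm_num, by norm_num⟩
  have hg01 : ∀ z, 0 ≤ g z ∧ g z ≤ 1 := by
    intro z
    rw [hg]
    by_cases hz : z ∈ {y : E N | b' < inner ℝ y e}
    · rw [indicator_of_mem hz]; exact hchi01 z
    · rw [indicator_of_notMem hz]; exact ⟨by norm_num, by norm_num⟩
  have htail := hTAIL N (1 / 2) s (D * t - 1) (by norm_num) (by norm_num) hs0 (by linarith)
    (y + r • e) g (hchi.indicator hmeasS).aestronglyMeasurable hg01 (by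
      intro y' hy'
      by_contra hne
      have hmem1 : b' < inner ℝ y' e := by
        by_contra hcon
        exact hne (by
          rw [hg]
          exact indicator_of_notMem (s := {y : E N | b' < inner ℝ y e}) hcon _)
      have hmem2 : y' ∈ U := by
        by_contra hcon
        apply hne
        rw [hg, indicator_of_mem (show y' ∈ {y : E N | b' < inner ℝ y e} from hmem1)]
        unfold chi
        exact indicator_of_notMem hcon _
      have hfar := far hb ht0 hη4 hηb hδ0 hδ8 (by linarith : δ0 / 2 + η ≤ δ0) hC4 hN hd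
        htR hy hmem2 (by rw [hb'] at hmem1; linarith)
      have h1 : dist y (y + r • e) = r := by
        rw [dist_eq_norm, sub_add_cancel_left, norm_neg, norm_smul, he, Real.norm_eq_abs,
          abs_of_pos hr0, mul_one]
      have h2 := dist_triangle y (y + r • e) y'
      rw [← hD] at hfar
      linarith)
  -- the exponent
  have hexp : B * t ≤ (1 - 1 / 2) * (D * t - 1) ^ 2 / (4 * s) := by
    rw [le_div_iff₀ (by positivity)]
    have h1 : (D * t) ^ 2 / 2 ≤ (D * t - 1) ^ 2 := by nlinarith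
    have h2 : B * t * (4 * s) ≤ D ^ 2 / 16 * t * (4 * t) := by gcongr
    nlinarith
  have hPb : P s g (y + r • e) ≤ A2 * Real.exp (-(B * t)) := by
    refine htail.trans ?_
    rw [← hA2]
    gcongr
  have hdiff : u s (y + r • e) - u s y ≤ Real.exp (-((2 * M + 2) * t)) := by
    calc u s (y + r • e) - u s y ≤ Real.exp (K * s) * P s g (y + r • e) := hodd
      _ ≤ Real.exp (K * s) * (A2 * Real.exp (-(B * t))) := by
          gcongr
      _ ≤ Real.exp (K * t) * (A2 * Real.exp (-(B * t))) := by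
          gcongr
      _ ≤ Real.exp (K * t) * (Real.exp t * Real.exp (-(B * t))) := by
          gcongr
          have := Real.add_one_le_exp t
          linarith
      _ = Real.exp (-((2 * M + 2) * t)) := by
          rw [← Real.exp_add, ← Real.exp_add]
          congr 1
          rw [hB]
          ring
  have hmv := mvt (hS.sol.sol.c2 s hs0) (y := y) he (fun x x' => (hC s hs1 x).2.2 x') hC0 hr0
  have hr2 : Real.exp (-((2 * M + 2) * t)) = r ^ 2 := by
    rw [hr, ← Real.exp_nat_mul]
    congr 1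
    push_cast
    ring
  rw [hr2] at hdiff
  have h1 : r * dx u e s y ≤ r * ((1 + C) * r) := by
    have h2 : r * dx u e s y - C * r ^ 2 ≤ r ^ 2 := hmv.trans hdiff
    nlinarith
  have h2 : dx u e s y ≤ (1 + C) * r := le_of_mul_le_mul_left h1 hr0
  calc dx u e s y ≤ (1 + C) * r := h2
    _ ≤ Real.exp t * r := by
        gcongr
        have := Real.add_one_le_exp t
        linarith
    _ = Real.exp (-(M * t)) := by
        rw [hr, ← Real.exp_add]
        congr 1
        ring

end Pool.Agent.H33.RF.E1
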