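import Pool.Agent.H73.RF.TLIN
import Pool.Agent.H10.RF.Bar
import Pool.Agent.H3.RF.Lib

/-!
# MP_609556_an, module P0B: a barrier with a zone compensated by `p`
-/

open MeasureTheory Set Filter Topology Metric
open Pool.Agent.H29.TF (hk P)
open Pool.Agent.H91.RD Pool.Agent.H91.RF

namespace Pool.Agent.H33.RF.P0B

open Pool.Agent.H10.RF Pool.Agent.H73.RF

variable {N : ℕ}

/-! ### Linear combination -/

theorem meas_slice {V : ℝ → E N → ℝ} {a b : ℝ} {z : ℝ → E N → ℝ} (hz : LinD V a b z) {s : ℝ}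
    (hs : a ≤ s) (hsb : s ≤ b) : Measurable (z s) := by
  rcases eq_or_lt_of_le hs with h | h
  · rw [← h]; exact hz.meas
  · have h1 : ContinuousOn (fun y : E N => z s y) univ := by
      refine hz.cont.comp (f := fun y : E N => (s, y)) (by fun_prop) ?_
      intro y _
      exact ⟨⟨h, hsb⟩, trivial⟩
    exact (continuousOn_univ.1 h1).measurable

theorem linS_sub {K : ℝ} {V F z p : ℝ → E N → ℝ} {a b : ℝ} (hV : Pt K V) (hz : LinD V a b z)
    (hp : LinD V a b p) (A : ℝ) (hF : ∀ r ∈ Ioo a b, ∀ y, F r y = -(A * p r y)) :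
    LinS V F a b (fun t x => z t x - A * ((t - a) * p t x)) := by
  have hT := TLIN N K a b V p hV hp
  refine ⟨?_, ?_, ?_, ?_⟩
  · obtain ⟨M, hM⟩ := hz.bdd
    obtain ⟨L, hL⟩ := hT.bdd
    refine ⟨M + |A| * L, fun t ht x => ?_⟩
    refine (abs_sub _ _).trans (add_le_add (hM t ht x) ?_)
    rw [abs_mul]
    exact mul_le_mul_of_nonneg_left (hL t ht x) (abs_nonneg _)
  · exact hz.meas.sub (hT.meas.const_mul A)
  · exact hz.cont.sub (continuousOn_const.mul hT.cont)
  · intro s t hs hst ht x
    have gz : GF s t z := LinD.gf hz hs ht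
    have gp : GF s t p := LinD.gf hp hs ht
    have gVz : GF s t (fun r y => V r y * z r y) := gz.mulV hV
    have gTp : GF s t (fun r y => V r y * ((r - a) * p r y)) := (gp.mulT a hst).mulV hV
    have gS : GF s t (fun r y => V r y * ((r - a) * p r y) + p r y) := gTp.add gp
    have hd1 := hz.duh s t hs hst ht x
    have hd2 := hT.duh s t hs hst ht x
    have hst0 : 0 < t - s := sub_pos.2 hst
    obtain ⟨M, hM⟩ := hz.bdd
    obtain ⟨L, hL⟩ := hT.bdd
    have hsm : s ∈ Icc a b := ⟨hs, hst.le.trans ht⟩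
    have e1 : P (t - s) (fun y => z s y - A * ((s - a) * p s y)) x =
        P (t - s) (z s) x - A * P (t - s) (fun y => (s - a) * p s y) x := by
      rw [Pool.Agent.H29.TF.P_sub x, Pool.Agent.H29.TF.P_const_mul]
      · exact Pool.Agent.H29.TF.integrable_hk_mul hst0
          (meas_slice hz hs (hst.le.trans ht)).aestronglyMeasurable (hM s hsm) x
      · refine Pool.Agent.H29.TF.integrable_hk_mul (C := |A| * L) hst0
          (((meas_slice hp hs (hst.le.trans ht)).const_mul _).const_mul A).aestronglyMeasurable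
          (fun y => ?_) x
        rw [abs_mul]
        exact mul_le_mul_of_nonneg_left (hL s hsm y) (abs_nonneg _)
    have e2 : ∫ r in s..t, P (t - r) (fun y => V r y * (z r y - A * ((r - a) * p r y)) + F r y) x =
        (∫ r in s..t, P (t - r) (fun y => V r y * z r y) x) -
          A * ∫ r in s..t, P (t - r) (fun y => V r y * ((r - a) * p r y) + p r y) x := by
      rw [← intervalIntegral.integral_const_mul, ← intervalIntegral.integral_sub (gVz.ii hst x)
        ((gS.ii hst x).const_mul A)]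
      refine intervalIntegral.integral_congr_ae ?_
      have : ∀ᵐ r ∂(volume : Measure ℝ), r ≠ t := by
        simp [ae_iff, measure_singleton]
      filter_upwards [this] with r hrt hr
      rw [uIoc_of_le hst.le] at hr
      have hr' : r ∈ Ioo s t := ⟨hr.1, lt_of_le_of_ne hr.2 hrt⟩
      rw [← Pool.Agent.H29.TF.P_const_mul, ← Pool.Agent.H29.TF.P_sub x (gVz.integrable hr' x)]
      · congr 1
        funext y
        rw [hF r ⟨lt_of_le_of_lt hs hr'.1, lt_of_lt_of_le hr'.2 ht⟩ y]
        ring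
      · have := (gS.integrable hr' x).const_mul A
        refine this.congr (Eventually.of_forall fun y => ?_)
        simp only
        ring
    rw [e1, e2, hd1, hd2]
    ring

/-! ### The barrier -/

/-- directions of the exponentials -/
noncomputable def av (j : Fin N × Bool) : E N :=
  if j.2 then EuclideanSpace.basisFun (Fin N) ℝ j.1 else -EuclideanSpace.basisFun (Fin N) ℝ j.1

theorem norm_av (j : Fin N × Bool) : ‖av j‖ = 1 := by
  unfold av
  split_ifs
  · exact (EuclideanSpace.basisFun (Fin N) ℝ).orthonormal.1 j.1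
  · rw [norm_neg]; exact (EuclideanSpace.basisFun (Fin N) ℝ).orthonormal.1 j.1

theorem ex_le (a x0 : E N) (α β s L : ℝ) (hL : ‖a‖ ≤ L) (y y' : E N) :
    ex a x0 α β s y' ≤ Real.exp (L * dist y' y) * ex a x0 α β s y := by
  unfold ex
  rw [← Real.exp_add, Real.exp_le_exp]
  have h1 : inner ℝ (y' - x0) a = inner ℝ (y' - y) a + inner ℝ (y - x0) a := by
    rw [← inner_add_left]; congr 1; abel
  have h2 : inner ℝ (y' - y) a ≤ ‖y' - y‖ * ‖a‖ := real_inner_le_norm _ _
  have h3 : ‖y' - y‖ * ‖a‖ ≤ ‖y' - y‖ * L := by gcongr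
  rw [h1, dist_eq_norm]
  nlinarith

/-- a point outside a ball is far away in some coordinate direction -/
theorem exists_dir (hN : 1 ≤ N) (v : E N) : ∃ j : Fin N × Bool, ‖v‖ / √N ≤ inner ℝ v (av j) := by
  have hN0 : (0 : ℝ) < N := by exact_mod_cast hN
  by_contra hcon
  push Not at hcon
  have h1 : ∀ i : Fin N, |inner ℝ v (EuclideanSpace.basisFun (Fin N) ℝ i)| < ‖v‖ / √N := by
    intro i
    rw [abs_lt]
    constructor
    · have h2 := hcon (i, false)
      unfold av at h2
      simp only [Bool.false_eq_true, if_false, inner_neg_right] at h2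
      linarith
    · have h2 := hcon (i, true)
      unfold av at h2
      simpa using h2
  have h2 : ‖v‖ ^ 2 < ‖v‖ ^ 2 := by
    calc ‖v‖ ^ 2 = ∑ i, (inner ℝ v (EuclideanSpace.basisFun (Fin N) ℝ i)) ^ 2 :=
          (Pool.Agent.H90.RD.sum_inner_sq v).symm
      _ < ∑ _i : Fin N, (‖v‖ / √N) ^ 2 := by
          refine Finset.sum_lt_sum_of_nonempty ⟨⟨0, hN⟩, Finset.mem_univ _⟩ fun i _ => ?_
          rw [← sq_abs (inner ℝ v (EuclideanSpace.basisFun (Fin N) ℝ i))]
          exact pow_lt_pow_left₀ (h1 i) (abs_nonneg _) two_ne_zero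
      _ = ‖v‖ ^ 2 := by
          rw [Finset.sum_const, Finset.card_univ, Fintype.card_fin, nsmul_eq_mul, div_pow,
            Real.sq_sqrt hN0.le]
          field_simp
  exact lt_irrefl _ h2

/-- **[P0B]** -/
theorem p0b (hMPV : T_MPV) (hKEX : T_KEX) (hKER : T_KER) : T_P0B := by
  intro N K cc γ κ1 ω c1 A1 Mb Mp C2 R d0 a b V p g x0 e hN hV hVc hp hpc hab he hκ hγ hγ0 hω hA1
    hMb hR hC2 hMp hball hg hgM hgb hbig
  have hK0 := hV.K0
  have hN0 : (0 : ℝ) < N := by exact_mod_cast hN
  have hsN : 0 < √(N : ℝ) := Real.sqrt_pos.2 hN0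
  have hMp0 : 0 ≤ Mp := (abs_nonneg _).trans (hMp a ⟨le_rfl, hab.le⟩ x0)
  have hba : 0 < b - a := sub_pos.2 hab
  -- the barrier
  set α1 := γ * cc + κ1 ^ 2 + ω with hα1
  set β1 := -(γ * d0) - (κ1 ^ 2 + ω) * a + c1 with hβ1
  set β2 := -((K + 1) * a) - R / (2 * √N) with hβ2
  set H1 : ℝ → E N → ℝ := fun τ x => ex (-(γ • e)) x0 α1 β1 τ x with hH1
  set Bq : ℝ → E N → ℝ := fun τ x =>
    Bs (av (N := N)) x0 (fun _ => K + 1) (fun _ => β2) τ x with hBq
  set B : ℝ → E N → ℝ := fun τ x => H1 τ x + C2 / 2 * Bq τ x with hB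
  have hH1eq : ∀ τ x, H1 τ x = Real.exp (-(γ * (d0 + inner ℝ (x - x0) e - cc * τ)) +
      (κ1 ^ 2 + ω) * (τ - a) + c1) := by
    intro τ x
    show Real.exp _ = _
    congr 1
    rw [inner_neg_right, inner_smul_right, hα1, hβ1]
    ring
  have hH1pos : ∀ τ x, 0 < H1 τ x := fun τ x => Real.exp_pos _
  have hBq0 : ∀ τ x, 0 ≤ Bq τ x := fun τ x => Bs_nonneg _ _ _ _ _ _
  have hBH : ∀ τ x, H1 τ x ≤ B τ x := by
    intro τ x
    have := mul_nonneg (by positivity : 0 ≤ C2 / 2) (hBq0 τ x)
    show H1 τ x ≤ H1 τ x + C2 / 2 * Bq τ x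
    linarith
  have hBB : ∀ τ x, C2 / 2 * Bq τ x ≤ B τ x := by
    intro τ x
    have := (hH1pos τ x).le
    show C2 / 2 * Bq τ x ≤ H1 τ x + C2 / 2 * Bq τ x
    linarith
  have hB0 : ∀ τ x, 0 ≤ B τ x := fun τ x => (hH1pos τ x).le.trans (hBH τ x)
  have hBcont : Continuous (fun q : ℝ × E N => B q.1 q.2) :=
    (ex_continuous _ _ _ _).add (continuous_const.mul (Bs_continuous _ _ _ _))
  -- outside the ball
  have hout : ∀ τ, a ≤ τ → ∀ x, R ≤ ‖x - x0‖ → C2 / 2 * Real.exp (R / (2 * √N)) ≤ B τ x := by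
    intro τ hτ x hx
    refine le_trans ?_ (hBB τ x)
    apply mul_le_mul_of_nonneg_left _ (by positivity)
    obtain ⟨j, hj⟩ := exists_dir hN (x - x0)
    refine le_trans ?_ (Bs_pos_of_mem _ _ _ _ j τ x)
    unfold ex
    rw [Real.exp_le_exp, hβ2]
    have h1 : R / √N ≤ ‖x - x0‖ / √N := by gcongr
    have h2 : R / √N = R / (2 * √N) + R / (2 * √N) := by field_simp; norm_num
    have h3 : 0 ≤ (K + 1) * (τ - a) := mul_nonneg (by linarith) (by linarith)
    linarith
  have hexpK : 1 ≤ Real.exp (K * (b - a)) := Real.one_le_exp (by positivity)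
  have hMb1 : Mb ≤ Mb * Real.exp (K * (b - a)) := le_mul_of_one_le_right hMb hexpK
  -- the enlarged initial datum
  set gh : E N → ℝ := fun y => min Mb (B a y) with hgh
  have hgh0 : ∀ y, 0 ≤ gh y := fun y => le_min hMb (hB0 a y)
  have hghM : ∀ y, |gh y| ≤ Mb := fun y => by
    rw [abs_of_nonneg (hgh0 y)]; exact min_le_left _ _
  have hBa : Continuous (B a) := (ex_contDiff _ _ _ _ _).continuous.add
    (continuous_const.mul (Bs_contDiff _ _ _ _ _).continuous)
  have hghm : Measurable gh := (continuous_const.min hBa).measurable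
  have hggh : ∀ y, g y ≤ gh y := by
    intro y
    refine le_min (hgM y).2 ?_
    by_cases hy : y ∈ closedBall x0 R
    · refine (hgb y hy).trans (le_trans (le_of_eq ?_) (hBH a y))
      rw [hH1eq]
      congr 1
      ring
    · rw [mem_closedBall, not_le, dist_eq_norm] at hy
      refine le_trans ?_ (hout a le_rfl y hy.le)
      have h1 : 0 ≤ A1 * (b - a) * Mp := by positivity
      have h2 := (hgM y).2
      linarith
  have hBlip : ∀ y y', B a y' ≤ Real.exp ((γ + 1) * dist y' y) * B a y := by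
    intro y y'
    have h1 : H1 a y' ≤ Real.exp ((γ + 1) * dist y' y) * H1 a y := by
      refine ex_le _ _ _ _ _ _ ?_ _ _
      rw [norm_neg, norm_smul, he, mul_one, Real.norm_eq_abs, abs_of_nonneg hγ0]
      linarith
    have h2 : Bq a y' ≤ Real.exp ((γ + 1) * dist y' y) * Bq a y := by
      show Bs _ _ _ _ _ _ ≤ _ * Bs _ _ _ _ _ _
      unfold Bs
      rw [Finset.mul_sum]
      refine Finset.sum_le_sum fun j _ => ex_le _ _ _ _ _ _ ?_ _ _
      rw [norm_av]; linarith
    have h3 : C2 / 2 * Bq a y' ≤ C2 / 2 * (Real.exp ((γ + 1) * dist y' y) * Bq a y) :=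
      mul_le_mul_of_nonneg_left h2 (by positivity)
    show H1 a y' + C2 / 2 * Bq a y' ≤ _ * (H1 a y + C2 / 2 * Bq a y)
    linarith
  have hghu : UniformContinuous gh := by
    have hone : ∀ y y', gh y' - gh y ≤ (Real.exp ((γ + 1) * dist y' y) - 1) * Mb := by
      intro y y'
      have hE : 1 ≤ Real.exp ((γ + 1) * dist y' y) := Real.one_le_exp (by positivity)
      have h1 : gh y' ≤ Real.exp ((γ + 1) * dist y' y) * gh y := by
        show min Mb (B a y') ≤ _ * min Mb (B a y)
        rw [mul_min_of_nonneg _ _ (by positivity : 0 ≤ Real.exp ((γ + 1) * dist y' y))]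
        refine le_min ((min_le_left _ _).trans (le_mul_of_one_le_left hMb hE))
          ((min_le_right _ _).trans (hBlip y y'))
      have h2 : (Real.exp ((γ + 1) * dist y' y) - 1) * gh y ≤
          (Real.exp ((γ + 1) * dist y' y) - 1) * Mb := by
        apply mul_le_mul_of_nonneg_left (min_le_left _ _)
        linarith
      linarith
    rw [Metric.uniformContinuous_iff]
    intro ε hε
    have hcont : Continuous (fun r : ℝ => (Real.exp ((γ + 1) * r) - 1) * Mb) := by fun_prop
    have ht : Tendsto (fun r : ℝ => (Real.exp ((γ + 1) * r) - 1) * Mb) (𝓝 0) (𝓝 0) := by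
      have := hcont.tendsto 0
      simpa using this
    obtain ⟨δ, hδ, hδ'⟩ := Metric.eventually_nhds_iff.1 (ht.eventually (gt_mem_nhds hε))
    refine ⟨δ, hδ, fun {y y'} hyy => ?_⟩
    have h1 := hδ' (y := dist y y') (by rwa [Real.dist_eq, sub_zero, abs_of_nonneg dist_nonneg])
    rw [Real.dist_eq, abs_lt]
    constructor
    · have h2 := hone y y'
      rw [dist_comm] at h2
      linarith
    · have h2 := hone y' y
      linarith
  -- the comparison function
  obtain ⟨hzD, hzc⟩ := hKEX N K a b V gh hV hab hghm ⟨Mb, hghM⟩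
  specialize hzc hghu
  set zt : ℝ → E N → ℝ := fun t x => if t ≤ a then gh x else ∫ y, gk V t x a y * gh y with hzt
  have hztM : ∀ t ∈ Icc a b, ∀ x, zt t x ≤ Mb * Real.exp (K * (b - a)) := by
    intro t ht x
    show (if t ≤ a then gh x else ∫ y, gk V t x a y * gh y) ≤ _
    by_cases hta : t ≤ a
    · rw [if_pos hta]
      exact (min_le_left _ _).trans hMb1
    · rw [if_neg hta]
      rw [not_le] at hta
      calc ∫ y, gk V t x a y * gh y ≤ ∫ y, gk V t x a y * Mb :=
            Pool.Agent.H3.RF.gk_mono hKER hV hta x hghm hghM measurable_const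
              (fun _ => (abs_of_nonneg hMb).le) (fun y => min_le_left _ _)
        _ ≤ Real.exp (K * (t - a)) * Mb := Pool.Agent.H3.RF.gk_const hKER hV hta x hMb
        _ ≤ Real.exp (K * (b - a)) * Mb := by
            have := ht.2
            gcongr
        _ = Mb * Real.exp (K * (b - a)) := mul_comm _ _
  set F : ℝ → E N → ℝ := fun t x => (Icc a b).indicator (fun t => -(A1 * p t x)) t with hF
  have hFin : ∀ t ∈ Icc a b, ∀ x, F t x = -(A1 * p t x) := by
    intro t ht x
    exact indicator_of_mem ht _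
  have hLS : LinS V F a b (fun t x => zt t x - A1 * ((t - a) * p t x)) :=
    linS_sub hV hzD hp A1 (fun r hr y => hFin r ⟨hr.1.le, hr.2.le⟩ y)
  set z' : ℝ → E N → ℝ := fun t x => zt t x - A1 * ((t - a) * p t x) with hz'
  have hFc : ContinuousOn (fun q : ℝ × E N => F q.1 q.2) (Icc a b ×ˢ univ) := by
    refine ContinuousOn.congr (f := fun q : ℝ × E N => -(A1 * p q.1 q.2))
      ((continuousOn_const.mul hpc).neg) ?_
    intro q hq
    exact hFin q.1 hq.1 q.2
  have hFb : ∃ M, ∀ t x, |F t x| ≤ M := by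
    refine ⟨A1 * Mp, fun t x => ?_⟩
    by_cases ht : t ∈ Icc a b
    · rw [hFin t ht x, abs_neg, abs_mul, abs_of_nonneg hA1]
      exact mul_le_mul_of_nonneg_left (hMp t ht x) hA1
    · have : F t x = 0 := indicator_of_notMem ht _
      rw [this, abs_zero]
      positivity
  have hz'c : ContinuousOn (fun q : ℝ × E N => z' q.1 q.2) (Icc a b ×ˢ univ) := by
    refine hzc.sub (continuousOn_const.mul (ContinuousOn.mul (by fun_prop) hpc))
  have hfar : ∀ t ∈ Icc a b, ∀ x, R ≤ ‖x - x0‖ → z' t x ≤ B t x := by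
    intro t ht x hx
    refine le_trans ?_ (hout t ht.1 x hx)
    have h1 := hztM t ht x
    have h2 : -(A1 * ((t - a) * p t x)) ≤ A1 * (b - a) * Mp := by
      have h3 : |(t - a) * p t x| ≤ (b - a) * Mp := by
        rw [abs_mul, abs_of_nonneg (sub_nonneg.2 ht.1)]
        exact mul_le_mul (by linarith [ht.2]) (hMp t ht x) (abs_nonneg _) hba.le
      have h4 := (abs_le.1 h3).1
      have h5 : A1 * -((t - a) * p t x) ≤ A1 * ((b - a) * Mp) := by
        apply mul_le_mul_of_nonneg_left _ hA1
        linarith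
      linarith
    show zt t x - A1 * ((t - a) * p t x) ≤ _
    linarith
  have hmain := hMPV N K a b (‖x0‖ + R) V F z' B hab hV hVc hFc hFb hLS hz'c hBcont.continuousOn
    (fun t ht x hx => hfar t ht x (by
      have := norm_sub_norm_le x x0
      linarith))
    (fun x => by
      show zt a x - A1 * ((a - a) * p a x) ≤ B a x
      have h1 : zt a x = gh x := if_pos le_rfl
      rw [h1, sub_self, zero_mul, mul_zero, sub_zero]
      exact min_le_right _ _)
    (fun t ht x hlt => by
      have htI : t ∈ Icc a b := ⟨ht.1.le, ht.2⟩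
      have hx : x ∈ closedBall x0 R := by
        rw [mem_closedBall, dist_eq_norm]
        by_contra hcon
        exact absurd hlt (not_lt.2 (hfar t htI x (not_le.1 hcon).le))
      have hc1 : ContDiffAt ℝ 2 (ex (-(γ • e)) x0 α1 β1 t) x := (ex_contDiff _ _ _ _ _).contDiffAt
      have hc2 : ContDiffAt ℝ 2 (Bs (av (N := N)) x0 (fun _ => K + 1) (fun _ => β2) t) x :=
        (Bs_contDiff _ _ _ _ _).contDiffAt
      have hc3 : ContDiffAt ℝ 2 ((C2 / 2) •
          Bs (av (N := N)) x0 (fun _ => K + 1) (fun _ => β2) t) x := hc2.const_smul (C2 / 2)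
      have hBfun : B t = ex (-(γ • e)) x0 α1 β1 t +
          (C2 / 2) • Bs (av (N := N)) x0 (fun _ => K + 1) (fun _ => β2) t := rfl
      have hder : HasDerivAt (fun s => B s x) (α1 * H1 t x + C2 / 2 * ((K + 1) * Bq t x)) t := by
        have h1 := (ex_time (-(γ • e)) x0 α1 β1 t x).add
          ((Bs_time (av (N := N)) x0 (fun _ => K + 1) (fun _ => β2) t x).const_mul (C2 / 2))
        refine h1.congr_deriv ?_
        have h2 : (∑ j : Fin N × Bool, (K + 1) * ex (av j) x0 (K + 1) β2 t x) =
            (K + 1) * Bq t x := by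
          rw [← Finset.mul_sum]
          rfl
        rw [h2]
      have hlap : Laplacian.laplacian (B t) x = γ ^ 2 * H1 t x + C2 / 2 * Bq t x := by
        rw [hBfun, hc1.laplacian_add hc3, InnerProductSpace.laplacian_smul _ hc2, ex_lap, Bs_lap,
          smul_eq_mul, norm_neg, norm_smul, he, mul_one, Real.norm_eq_abs, sq_abs]
        have h2 : (∑ j : Fin N × Bool, ‖av j‖ ^ 2 * ex (av j) x0 (K + 1) β2 t x) = Bq t x := by
          show _ = Bs _ _ _ _ _ _
          unfold Bs
          refine Finset.sum_congr rfl fun j _ => ?_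
          rw [norm_av, one_pow, one_mul]
        rw [h2]
      refine ⟨?_, hder.differentiableAt, ?_⟩
      · rw [hBfun]; exact hc1.add hc3
      · rw [hder.deriv, hlap, hFin t htI x]
        obtain ⟨hp0, hor⟩ := hball t htI x hx
        rw [← hH1eq t x] at hor
        have hBt : B t x = H1 t x + C2 / 2 * Bq t x := rfl
        rw [hBt]
        have hH := hH1pos t x
        have hQ : 0 ≤ C2 / 2 * Bq t x := mul_nonneg (by positivity) (hBq0 t x)
        have hVle : V t x ≤ K := (le_abs_self _).trans (hV.bdd t x)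
        have hVge : -K ≤ V t x := (abs_le.1 (hV.bdd t x)).1
        have hQ2 : V t x * (C2 / 2 * Bq t x) ≤ K * (C2 / 2 * Bq t x) := by gcongr
        have hAp : 0 ≤ A1 * p t x := mul_nonneg hA1 hp0
        have hα : α1 - γ ^ 2 = cc ^ 2 / 4 + ω := by rw [hα1, hγ]; ring
        have hkey : V t x * H1 t x ≤ (α1 - γ ^ 2) * H1 t x + A1 * p t x := by
          rw [hα]
          rcases hor with h | h
          · have : V t x * H1 t x ≤ (cc ^ 2 / 4 + ω) * H1 t x := by gcongr
            linarith
          · have h1 : V t x * H1 t x ≤ K * H1 t x := by gcongr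
            have h2 : 0 ≤ (cc ^ 2 / 4 + ω) * H1 t x := by positivity
            linarith
        nlinarith) b ⟨hab.le, le_rfl⟩ x0
  -- conclusion
  have hzb : zt b x0 = ∫ y, gk V b x0 a y * gh y := if_neg (not_le.2 hab)
  have hz'b : z' b x0 = zt b x0 - A1 * ((b - a) * p b x0) := rfl
  have hBb : B b x0 = Real.exp (-(γ * (d0 - cc * b)) + (κ1 ^ 2 + ω) * (b - a) + c1) +
      N * C2 * Real.exp ((K + 1) * (b - a) - R / (2 * √N)) := by
    show H1 b x0 + C2 / 2 * Bq b x0 = _
    congr 1
    · rw [hH1eq, sub_self, inner_zero_left, add_zero]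
    · have h1 : Bq b x0 = 2 * N * Real.exp ((K + 1) * (b - a) - R / (2 * √N)) := by
        show Bs _ _ _ _ _ _ = _
        unfold Bs
        have h2 : ∀ j : Fin N × Bool, ex (av j) x0 (K + 1) β2 b x0 =
            Real.exp ((K + 1) * (b - a) - R / (2 * √N)) := by
          intro j
          unfold ex
          rw [sub_self, inner_zero_left, hβ2]
          congr 1
          ring
        rw [Finset.sum_congr rfl fun j _ => h2 j, Finset.sum_const, Finset.card_univ,
          Fintype.card_prod, Fintype.card_fin, Fintype.card_bool, nsmul_eq_mul]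
        push_cast
        ring
      rw [h1]
      ring
  have hle : ∫ y, gk V b x0 a y * g y ≤ ∫ y, gk V b x0 a y * gh y :=
    Pool.Agent.H3.RF.gk_mono hKER hV hab x0 hg
      (fun y => by rw [abs_of_nonneg (hgM y).1]; exact (hgM y).2) hghm hghM hggh
  rw [hz'b, hzb, hBb] at hmain
  linarith

end Pool.Agent.H33.RF.P0B
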