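import Pool.Agent.H91.RF.TargetsR

/-!
# MP_609556_an, module VLA: pointwise bounds in the past for ancient solutions
-/

open MeasureTheory Set Filter Topology Metric
open Pool.Agent.H29.TF (hk P)
open Pool.Agent.H91.RD Pool.Agent.H91.RF

namespace Pool.Agent.H33.RF.VLA

variable {N : ℕ} {cc C : ℝ} {v vt : ℝ → E N → ℝ}

/-- the slope bound, integrated -/
theorem slope (hV : Vc0 cc C v vt) {t : ℝ} (ht : t ≤ 0) (x x' : E N) :
    v t x' ≤ v t x * Real.exp (cc / 2 * ‖x' - x‖) := by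
  set L := cc / 2 * ‖x' - x‖ with hL
  have hd : Differentiable ℝ (v t) := (hV.c1 t ht).differentiable (by norm_num)
  have hder : ∀ τ : ℝ, HasDerivAt (fun τ : ℝ => v t (x + τ • (x' - x)) * Real.exp (-(L * τ)))
      (fderiv ℝ (v t) (x + τ • (x' - x)) (x' - x) * Real.exp (-(L * τ)) +
        v t (x + τ • (x' - x)) * (Real.exp (-(L * τ)) * (-L))) τ := by
    intro τ
    have h1 : HasDerivAt (fun τ : ℝ => x + τ • (x' - x)) (x' - x) τ := by
      have h2 : HasDerivAt (fun τ : ℝ => τ • (x' - x)) ((1 : ℝ) • (x' - x)) τ :=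
        (hasDerivAt_id τ).smul_const (x' - x)
      rw [one_smul] at h2
      exact h2.const_add x
    have h3 : HasDerivAt (fun τ : ℝ => v t (x + τ • (x' - x)))
        (fderiv ℝ (v t) (x + τ • (x' - x)) (x' - x)) τ :=
      (hd (x + τ • (x' - x))).hasFDerivAt.comp_hasDerivAt τ h1
    have h4 : HasDerivAt (fun τ : ℝ => Real.exp (-(L * τ))) (Real.exp (-(L * τ)) * (-L)) τ := by
      refine HasDerivAt.exp ?_
      have h5 : HasDerivAt (fun τ : ℝ => -(L * τ)) (-(L * 1)) τ :=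
        ((hasDerivAt_id τ).const_mul L).neg
      rwa [mul_one] at h5
    exact h3.mul h4
  have hanti : AntitoneOn (fun τ : ℝ => v t (x + τ • (x' - x)) * Real.exp (-(L * τ)))
      (Icc 0 1) := by
    refine antitoneOn_of_deriv_nonpos (convex_Icc 0 1)
      (fun τ _ => (hder τ).continuousAt.continuousWithinAt)
      (fun τ _ => (hder τ).differentiableAt.differentiableWithinAt) fun τ _ => ?_
    rw [(hder τ).deriv]
    have h1 : fderiv ℝ (v t) (x + τ • (x' - x)) (x' - x) ≤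
        cc / 2 * v t (x + τ • (x' - x)) * ‖x' - x‖ := by
      calc fderiv ℝ (v t) (x + τ • (x' - x)) (x' - x)
          ≤ ‖fderiv ℝ (v t) (x + τ • (x' - x))‖ * ‖x' - x‖ :=
            (Real.le_norm_self _).trans (ContinuousLinearMap.le_opNorm _ _)
        _ ≤ cc / 2 * v t (x + τ • (x' - x)) * ‖x' - x‖ := by
            have := hV.slp t ht (x + τ • (x' - x))
            unfold gr at this
            gcongr
    have h2 : fderiv ℝ (v t) (x + τ • (x' - x)) (x' - x) * Real.exp (-(L * τ)) ≤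
        cc / 2 * v t (x + τ • (x' - x)) * ‖x' - x‖ * Real.exp (-(L * τ)) := by gcongr
    rw [hL] at h2 ⊢
    linarith
  have h := hanti (left_mem_Icc.2 zero_le_one) (right_mem_Icc.2 zero_le_one) zero_le_one
  simp only [zero_smul, one_smul, add_zero, mul_zero, neg_zero, Real.exp_zero, mul_one] at h
  rw [show x + (x' - x) = x' by abel] at h
  calc v t x' = v t x' * Real.exp (-L) * Real.exp L := by
        rw [mul_assoc, ← Real.exp_add, neg_add_cancel, Real.exp_zero, mul_one]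
    _ ≤ v t x * Real.exp L := by gcongr

/-- the derivative along a backward path -/
theorem path (hV : Vc0 cc C v vt) (δ : E N) {σ0 : ℝ} (h0 : 0 ≤ σ0) :
    HasDerivWithinAt (fun σ : ℝ => v (-σ) (σ • δ))
      (fderiv ℝ (v (-σ0)) (σ0 • δ) δ + -vt (-σ0) (σ0 • δ)) (Ici 0) σ0 := by
  have hneg : -σ0 ≤ 0 := by linarith
  have hd : Differentiable ℝ (v (-σ0)) := (hV.c1 _ hneg).differentiable (by norm_num)
  have hA : HasDerivWithinAt (fun σ : ℝ => v (-σ0) (σ • δ))
      (fderiv ℝ (v (-σ0)) (σ0 • δ) δ) (Ici 0) σ0 := by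
    have h2 : HasDerivAt (fun τ : ℝ => τ • δ) ((1 : ℝ) • δ) σ0 :=
      (hasDerivAt_id σ0).smul_const δ
    rw [one_smul] at h2
    exact ((hd (σ0 • δ)).hasFDerivAt.comp_hasDerivAt σ0 h2).hasDerivWithinAt
  have hii : ∀ σ ∈ Ici (0 : ℝ), ∀ x, IntervalIntegrable (fun r => vt r x) volume (-σ0) (-σ) := by
    intro σ hσ x
    refine ContinuousOn.intervalIntegrable ?_
    refine hV.ct.comp (f := fun r : ℝ => (r, x)) (by fun_prop) ?_
    intro r hr
    refine ⟨?_, mem_univ _⟩
    rw [mem_uIcc] at hr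
    show r ≤ 0
    have hσ' : (0 : ℝ) ≤ σ := hσ
    rcases hr with h | h <;> linarith [h.1, h.2]
  have hB : HasDerivWithinAt (fun σ : ℝ => ∫ r in (-σ0)..(-σ), vt r (σ • δ))
      (-vt (-σ0) (σ0 • δ)) (Ici 0) σ0 := by
    rw [hasDerivWithinAt_iff_isLittleO]
    refine Asymptotics.IsLittleO.of_bound fun ε hε => ?_
    have hc : ContinuousWithinAt (fun p : ℝ × E N => vt p.1 p.2) (Iic 0 ×ˢ univ)
        (-σ0, σ0 • δ) := hV.ct _ ⟨hneg, mem_univ _⟩
    rw [Metric.continuousWithinAt_iff] at hc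
    obtain ⟨ρ, hρ, hρ'⟩ := hc ε hε
    have hev1 : ∀ᶠ σ in 𝓝[Ici 0] σ0, dist σ σ0 < ρ :=
      nhdsWithin_le_nhds (Metric.ball_mem_nhds σ0 hρ)
    have hev2 : ∀ᶠ σ in 𝓝[Ici 0] σ0, dist (σ • δ) (σ0 • δ) < ρ := by
      have hcont : Continuous fun σ : ℝ => σ • δ := by fun_prop
      exact nhdsWithin_le_nhds (hcont.continuousAt (Metric.ball_mem_nhds _ hρ))
    filter_upwards [hev1, hev2, self_mem_nhdsWithin] with σ h1 h2 h3
    have h3' : (0 : ℝ) ≤ σ := h3
    have e1 : (∫ r in (-σ0)..(-σ), vt r (σ • δ)) - (∫ r in (-σ0)..(-σ0), vt r (σ0 • δ)) -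
        (σ - σ0) • -vt (-σ0) (σ0 • δ) =
        ∫ r in (-σ0)..(-σ), (vt r (σ • δ) - vt (-σ0) (σ0 • δ)) := by
      rw [intervalIntegral.integral_sub (hii σ h3 _) intervalIntegrable_const,
        intervalIntegral.integral_same, intervalIntegral.integral_const, smul_eq_mul, smul_eq_mul]
      ring
    rw [e1]
    have e2 : ‖∫ r in (-σ0)..(-σ), (vt r (σ • δ) - vt (-σ0) (σ0 • δ))‖ ≤ ε * |-σ - -σ0| := by
      refine intervalIntegral.norm_integral_le_of_norm_le_const fun r hr => ?_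
      have hr' := uIoc_subset_uIcc hr
      rw [mem_uIcc] at hr'
      have hr0 : r ≤ 0 := by rcases hr' with h | h <;> linarith [h.1, h.2]
      have hrd : dist r (-σ0) < ρ := by
        rw [Real.dist_eq] at h1 ⊢
        rw [abs_lt] at h1 ⊢
        rcases hr' with h | h <;> constructor <;> linarith [h.1, h.2, h1.1, h1.2]
      have := hρ' (x := (r, σ • δ)) ⟨hr0, mem_univ _⟩ (by
        rw [Prod.dist_eq]
        exact max_lt hrd h2)
      rw [Real.dist_eq] at this
      rw [Real.norm_eq_abs]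
      exact this.le
    rw [show -σ - -σ0 = -(σ - σ0) by ring, abs_neg] at e2
    exact e2
  refine (hA.add hB).congr ?_ ?_
  · intro σ hσ
    have hσ' : (0 : ℝ) ≤ σ := hσ
    rcases le_total (-σ0) (-σ) with h | h
    · exact hV.int (-σ0) (-σ) h (by linarith) (σ • δ)
    · have h1 := hV.int (-σ) (-σ0) h hneg (σ • δ)
      show v (-σ) (σ • δ) = v (-σ0) (σ • δ) + ∫ r in (-σ0)..(-σ), vt r (σ • δ)
      rw [h1, intervalIntegral.integral_symm (-σ) (-σ0)]
      ring
  · show v (-σ0) (σ0 • δ) = v (-σ0) (σ0 • δ) + ∫ r in (-σ0)..(-σ0), vt r (σ0 • δ)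
    rw [intervalIntegral.integral_same, add_zero]

/-- inside the backward cone -/
theorem inside (hV : Vc0 cc C v vt) {cg : ℝ} (hcg : 0 < cg)
    (hg : ∀ t ≤ 0, ∀ x, cg * gr v t x ≤ vt t x) {s : ℝ} (hs : 0 < s) (y : E N)
    (hy : ‖y‖ ≤ cg * s) :
    v (-s) y ≤ v 0 0 * Real.exp (-(cc ^ 2 / 4 * (s - ‖y‖ / cg))) := by
  set δ : E N := (1 / s) • y with hδ
  set a := ‖y‖ / s with ha
  have hδn : ‖δ‖ = a := by
    rw [hδ, norm_smul, Real.norm_eq_abs, abs_of_pos (by positivity), ha]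
    ring
  have ha0 : 0 ≤ a := by positivity
  have hac : a ≤ cg := by rw [ha, div_le_iff₀ hs]; exact hy
  set lam := (1 - a / cg) * (cc ^ 2 / 4) with hlam
  have h1a : 0 ≤ 1 - a / cg := by
    rw [sub_nonneg, div_le_one hcg]; exact hac
  have hder : ∀ σ ∈ Ici (0 : ℝ), HasDerivWithinAt
      (fun σ : ℝ => v (-σ) (σ • δ) * Real.exp (lam * σ))
      ((fderiv ℝ (v (-σ)) (σ • δ) δ + -vt (-σ) (σ • δ)) * Real.exp (lam * σ) +
        v (-σ) (σ • δ) * (Real.exp (lam * σ) * lam)) (Ici 0) σ := by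
    intro σ hσ
    have h4 : HasDerivAt (fun τ : ℝ => Real.exp (lam * τ)) (Real.exp (lam * σ) * lam) σ := by
      refine HasDerivAt.exp ?_
      have := (hasDerivAt_id σ).const_mul lam
      simpa using this
    exact (path hV δ hσ).mul h4.hasDerivWithinAt
  have hanti : AntitoneOn (fun σ : ℝ => v (-σ) (σ • δ) * Real.exp (lam * σ)) (Icc 0 s) := by
    refine antitoneOn_of_deriv_nonpos (convex_Icc 0 s)
      (fun σ hσ => (hder σ hσ.1).continuousWithinAt.mono Icc_subset_Ici_self) ?_ ?_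
    · intro σ hσ
      rw [interior_Icc] at hσ
      exact ((hder σ hσ.1.le).hasDerivAt (Ici_mem_nhds hσ.1)).differentiableAt.differentiableWithinAt
    · intro σ hσ
      rw [interior_Icc] at hσ
      rw [((hder σ hσ.1.le).hasDerivAt (Ici_mem_nhds hσ.1)).deriv]
      have hσ0 : -σ ≤ 0 := by linarith [hσ.1]
      have h1 : fderiv ℝ (v (-σ)) (σ • δ) δ ≤ a / cg * vt (-σ) (σ • δ) := by
        calc fderiv ℝ (v (-σ)) (σ • δ) δ ≤ ‖fderiv ℝ (v (-σ)) (σ • δ)‖ * ‖δ‖ :=
              (Real.le_norm_self _).trans (ContinuousLinearMap.le_opNorm _ _)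
          _ = gr v (-σ) (σ • δ) * a := by rw [hδn]; rfl
          _ ≤ (vt (-σ) (σ • δ) / cg) * a := by
              have := hg (-σ) hσ0 (σ • δ)
              gcongr
              rw [le_div_iff₀ hcg]
              linarith
          _ = a / cg * vt (-σ) (σ • δ) := by ring
      have h2 := hV.low (-σ) hσ0 (σ • δ)
      have h3 : (1 - a / cg) * (cc ^ 2 / 4 * v (-σ) (σ • δ)) ≤
          (1 - a / cg) * vt (-σ) (σ • δ) := by gcongr
      have h4 : fderiv ℝ (v (-σ)) (σ • δ) δ + -vt (-σ) (σ • δ) + lam * v (-σ) (σ • δ) ≤ 0 := by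
        rw [hlam]
        linarith
      have h5 := mul_nonpos_of_nonpos_of_nonneg h4 (Real.exp_pos (lam * σ)).le
      linarith
  have h := hanti (left_mem_Icc.2 hs.le) (right_mem_Icc.2 hs.le) hs.le
  simp only [neg_zero, zero_smul, mul_zero, Real.exp_zero, mul_one] at h
  have hsδ : s • δ = y := by
    rw [hδ, smul_smul, mul_one_div_cancel hs.ne', one_smul]
  rw [hsδ] at h
  have hls : lam * s = cc ^ 2 / 4 * (s - ‖y‖ / cg) := by
    rw [hlam, ha]
    field_simp
  rw [hls] at h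
  calc v (-s) y = v (-s) y * Real.exp (cc ^ 2 / 4 * (s - ‖y‖ / cg)) *
        Real.exp (-(cc ^ 2 / 4 * (s - ‖y‖ / cg))) := by
        rw [mul_assoc, ← Real.exp_add, add_neg_cancel, Real.exp_zero, mul_one]
    _ ≤ v 0 0 * Real.exp (-(cc ^ 2 / 4 * (s - ‖y‖ / cg))) := by gcongr

/-- **[VLA]** -/
theorem vla : T_VLA := by
  intro N cc cg C v vt hcc hccg hV hg s hs y
  have hcg : 0 < cg := hcc.trans hccg
  have hpos := hV.anc.pos
  rcases eq_or_lt_of_le hs with h0 | hs0
  · subst h0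
    rw [neg_zero, mul_zero]
    constructor
    · intro hy
      have hy0 : y = 0 := by
        rw [← norm_le_zero_iff]; exact hy
      rw [hy0, norm_zero, zero_div, sub_zero, mul_zero, neg_zero, Real.exp_zero, mul_one]
    · intro _
      have := slope hV le_rfl (0 : E N) y
      rwa [sub_zero] at this ⊢
  · refine ⟨inside hV hcg hg hs0 y, fun hy => ?_⟩
    have hcs : 0 < cg * s := mul_pos hcg hs0
    have hyn : 0 < ‖y‖ := hcs.trans_le hy
    set r := cg * s / ‖y‖ with hr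
    have hr0 : 0 < r := by positivity
    have hr1 : r ≤ 1 := by rw [hr, div_le_one hyn]; exact hy
    have hn1 : ‖r • y‖ = cg * s := by
      rw [norm_smul, Real.norm_eq_abs, abs_of_pos hr0, hr, div_mul_cancel₀ _ hyn.ne']
    have h1 := inside hV hcg hg hs0 (r • y) (by rw [hn1])
    rw [hn1, mul_div_cancel_left₀ _ hcg.ne', sub_self, mul_zero, neg_zero, Real.exp_zero,
      mul_one] at h1
    have h2 := slope hV (by linarith : -s ≤ 0) (r • y) y
    have h3 : ‖y - r • y‖ = ‖y‖ - cg * s := by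
      have : y - r • y = (1 - r) • y := by rw [sub_smul, one_smul]
      rw [this, norm_smul, Real.norm_eq_abs, abs_of_nonneg (by linarith), sub_mul, one_mul, hr,
        div_mul_cancel₀ _ hyn.ne']
    rw [h3] at h2
    calc v (-s) y ≤ v (-s) (r • y) * Real.exp (cc / 2 * (‖y‖ - cg * s)) := h2
      _ ≤ v 0 0 * Real.exp (cc / 2 * (‖y‖ - cg * s)) := by gcongr

end Pool.Agent.H33.RF.VLA
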