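import Pool.Agent.H91.RF.TargetsR

/-!
# MP_609556_an, module VSL: slopes of `u` for small values of `u`
-/

open MeasureTheory Set Filter Topology Metric
open Pool.Agent.H29.TF (hk P)
open Pool.Agent.H91.RD Pool.Agent.H91.RF

namespace Pool.Agent.H33.RF.VSL

variable {N : ℕ}

/-- the slope at a point is at most the slope of the steepest profile -/
theorem slope_le {g : E N → ℝ} {q : ℝ → ℝ} (hg : Differentiable ℝ g) (hq : Differentiable ℝ q)
    {x : E N} {z : ℝ} (hneg : 0 ≤ -deriv q z) (h0 : g x = q z)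
    (h : ∀ y, q (z + dist x y) ≤ g y) : ‖fderiv ℝ g x‖ ≤ -deriv q z := by
  -- one sided estimate for all directions
  have key : ∀ w : E N, ‖w‖ * deriv q z ≤ fderiv ℝ g x w := by
    intro w
    have h1 : HasDerivAt (fun r : ℝ => g (x + r • w)) (fderiv ℝ g x w) 0 := by
      have h2 : HasDerivAt (fun r : ℝ => x + r • w) w 0 := by
        have h3 : HasDerivAt (fun r : ℝ => r • w) ((1 : ℝ) • w) 0 :=
          (hasDerivAt_id (0 : ℝ)).smul_const w
        rw [one_smul] at h3
        exact h3.const_add x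
      have h4 : HasFDerivAt g (fderiv ℝ g x) (x + (0 : ℝ) • w) := by
        rw [zero_smul, add_zero]; exact (hg x).hasFDerivAt
      exact h4.comp_hasDerivAt (0 : ℝ) h2
    have h5 : HasDerivAt (fun r : ℝ => q (z + r * ‖w‖)) (deriv q z * ‖w‖) 0 := by
      have h2 : HasDerivAt (fun r : ℝ => z + r * ‖w‖) ‖w‖ 0 := by
        have h3 : HasDerivAt (fun r : ℝ => r * ‖w‖) (1 * ‖w‖) 0 :=
          (hasDerivAt_id (0 : ℝ)).mul_const ‖w‖
        rw [one_mul] at h3
        exact h3.const_add z
      have h4 : HasDerivAt q (deriv q z) (z + 0 * ‖w‖) := by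
        rw [zero_mul, add_zero]; exact (hq z).hasDerivAt
      exact h4.comp (0 : ℝ) h2
    have h7 := (h1.sub h5).hasDerivWithinAt (s := Ioi 0)
    rw [hasDerivWithinAt_iff_tendsto_slope' (by simp)] at h7
    have h8 : 0 ≤ fderiv ℝ g x w - deriv q z * ‖w‖ := by
      refine ge_of_tendsto h7 ?_
      filter_upwards [self_mem_nhdsWithin] with r hr
      have hr0 : (0 : ℝ) < r := hr
      rw [slope_def_field]
      refine div_nonneg ?_ (by linarith)
      have h9 := h (x + r • w)
      rw [dist_eq_norm, sub_add_cancel_left, norm_neg, norm_smul, Real.norm_eq_abs,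
        abs_of_pos hr0] at h9
      simp only [Pi.sub_apply, zero_smul, add_zero, zero_mul]
      rw [h0]
      linarith
    linarith
  refine ContinuousLinearMap.opNorm_le_bound _ hneg fun w => ?_
  rw [Real.norm_eq_abs, abs_le]
  have h1 := key w
  have h2 := key (-w)
  rw [norm_neg, map_neg] at h2
  constructor <;> linarith

theorem NDir.mono {U : Set (E N)} {η η' : ℝ} {x e : E N} (h : NDir U η x e) (hη : η ≤ η') :
    NDir U η' x e := by
  obtain ⟨h1, ξ, e0, h2, h3⟩ := h
  exact ⟨h1, ξ, e0, h2, h3.trans hη⟩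

/-- decrease along the unit segment -/
theorem drop {g : E N → ℝ} (hg : Differentiable ℝ g) (x e : E N) {m : ℝ}
    (h : ∀ θ ∈ Ioo (0 : ℝ) 1, m ≤ -fderiv ℝ g (x + θ • e) e) : m ≤ g x - g (x + e) := by
  have hder : ∀ θ : ℝ, HasDerivAt (fun θ : ℝ => g (x + θ • e)) (fderiv ℝ g (x + θ • e) e) θ := by
    intro θ
    have h1 : HasDerivAt (fun θ : ℝ => x + θ • e) e θ := by
      have h2 : HasDerivAt (fun θ : ℝ => θ • e) ((1 : ℝ) • e) θ :=
        (hasDerivAt_id θ).smul_const e
      rw [one_smul] at h2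
      exact h2.const_add x
    exact (hg (x + θ • e)).hasFDerivAt.comp_hasDerivAt θ h1
  obtain ⟨θ, hθ, hθe⟩ := exists_hasDerivAt_eq_slope (fun θ : ℝ => g (x + θ • e))
    (fun θ => fderiv ℝ g (x + θ • e) e) one_pos
    (fun θ _ => (hder θ).continuousAt.continuousWithinAt) (fun θ _ => hder θ)
  simp only [zero_smul, add_zero, sub_zero, one_smul, div_one] at hθe
  have := h θ hθ
  linarith

/-- **[VSL]** -/
theorem vsl (hSTEEP : T_STEEP) (hPT : T_PT) (hHV : T_HV) (hGEOK : T_GEOK) : T_VSL := by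
  intro N f K U u J b c y C0 C9 η0 hS hT hfp hFr ε hε
  have hc0 : 0 < c 0 := (hT.ext 0 hT.J0).cpos
  obtain ⟨Pv, hPv⟩ := hHV f K hS.reac hS.lip
  obtain ⟨lam, hlam, ω, hω, T1, hT1, hPT'⟩ := hPT f K J b c y Pv hS.reac hS.lip hT hPv hfp ε hε
  obtain ⟨T2, hT2, hlow⟩ := hFr.low (ω / 2) (by positivity)
  have hη0 := hFr.hη0
  have hC9 := hFr.hC9
  obtain ⟨ρ, hρ, T3, hT3, hgeo⟩ := hGEOK N U (c 0 / 2) hS.condC hS.ne (by positivity) η0 hη0
  set η := min (min ρ (c 0 / 2)) (min (η0 / 2) (ω / (4 * C9))) with hη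
  have hηpos : 0 < η := by
    refine lt_min (lt_min hρ (by positivity)) (lt_min (by positivity) (by positivity))
  have hηρ : η ≤ ρ := (min_le_left _ _).trans (min_le_left _ _)
  have hηc : η ≤ c 0 / 2 := (min_le_left _ _).trans (min_le_right _ _)
  have hηη : η ≤ η0 / 2 := (min_le_right _ _).trans (min_le_left _ _)
  have hηω : η ≤ ω / (4 * C9) := (min_le_right _ _).trans (min_le_right _ _)
  refine ⟨min lam (1 / 2), lt_min hlam (by norm_num), η, hηpos,
    max (max T1 T2) (max T3 (1 / η)), lt_max_of_lt_left (lt_max_of_lt_left hT1), ?_⟩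
  intro t ht x e hN hd hu
  have ht1 : T1 ≤ t := (le_max_left _ _).trans ((le_max_left _ _).trans ht)
  have ht2 : T2 ≤ t := (le_max_right _ _).trans ((le_max_left _ _).trans ht)
  have ht3 : T3 ≤ t := (le_max_left _ _).trans ((le_max_right _ _).trans ht)
  have ht4 : 1 ≤ η * t := by
    have h1 : 1 / η ≤ t := (le_max_right _ _).trans ((le_max_right _ _).trans ht)
    rw [div_le_iff₀ hηpos] at h1
    linarith
  have ht0 : 0 < t := lt_of_lt_of_le hT1 ht1
  have hdiff : Differentiable ℝ (u t) := (hS.sol.sol.c2 t ht0).differentiable (by norm_num)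
  have hd' := abs_le.1 hd
  -- lower bound of `u`
  have hxlow : c 0 / 2 * t ≤ infDist x U := by
    have h1 : η * t ≤ c 0 / 2 * t := by gcongr
    linarith [hd'.1]
  have hulow : Real.exp (-(ω * t)) ≤ u t x := by
    have hdrop := drop hdiff x e (m := Real.exp (-(ω * t))) (by
      intro θ hθ
      have hdist : dist (x + θ • e) x ≤ 1 := by
        rw [dist_eq_norm, add_sub_cancel_left, norm_smul, hN.1, Real.norm_eq_abs,
          abs_of_pos hθ.1, mul_one]
        exact hθ.2.le
      have hN' : NDir U η0 (x + θ • e) e :=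
        hgeo t ht3 x e (NDir.mono hN hηρ) hxlow (x + θ • e) (by
          have : η * t ≤ ρ * t := by gcongr
          linarith)
      have hinf : |infDist (x + θ • e) U - infDist x U| ≤ 1 := by
        rw [abs_le]
        have h1 := infDist_le_infDist_add_dist (s := U) (x := x + θ • e) (y := x)
        have h2 := infDist_le_infDist_add_dist (s := U) (x := x) (y := x + θ • e)
        rw [dist_comm] at h2
        constructor <;> linarith
      have hinf' := abs_le.1 hinf
      have hclose : |infDist (x + θ • e) U - c 0 * t| ≤ 2 * η * t := by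
        rw [abs_le]
        constructor <;> linarith [hinf'.1, hinf'.2, hd'.1, hd'.2]
      have h3 := hlow t ht2 (x + θ • e) e hN' (hclose.trans (by
        have : 2 * η ≤ η0 := by linarith
        gcongr))
      refine le_trans ?_ h3
      rw [Real.exp_le_exp]
      have h4 : C9 * |infDist (x + θ • e) U - c 0 * t| ≤ ω / 2 * t := by
        calc C9 * |infDist (x + θ • e) U - c 0 * t| ≤ C9 * (2 * η * t) := by gcongr
          _ ≤ C9 * (2 * (ω / (4 * C9)) * t) := by gcongr
          _ = ω / 2 * t := by field_simp; norm_num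
      linarith)
    have h1 : 0 ≤ u t (x + e) := by
      have h2 := (hS.sol.rng t ht0.le (x + e)).1
      unfold lift0 at h2
      rwa [if_neg (not_le.2 ht0)] at h2
    linarith
  have hu0 : 0 < u t x := (Real.exp_pos _).trans_le hulow
  have hu1 : u t x < 1 := by
    have := hu.trans (min_le_right lam (1 / 2))
    linarith
  -- the corresponding point of the profile
  have hPvc : Differentiable ℝ (Pv t) := (hPv.c2 t ht0).differentiable (by norm_num)
  obtain ⟨z1, hz1⟩ := ((hPv.bot t ht0).eventually (lt_mem_nhds hu1)).exists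
  obtain ⟨z2, hz2⟩ := ((hPv.top t ht0).eventually (gt_mem_nhds hu0)).exists
  obtain ⟨z, hz⟩ : ∃ z, Pv t z = u t x := by
    have h1 : u t x ∈ Icc (Pv t z2) (Pv t z1) := ⟨hz2.le, hz1.le⟩
    exact mem_range_of_exists_le_of_exists_ge hPvc.continuous ⟨z2, hz2.le⟩ ⟨z1, hz1.le⟩
  have hl1 : lift0 U u t = u t := by
    unfold lift0
    rw [if_neg (not_le.2 ht0)]
  have hst := hSTEEP N f K Pv (lift0 U u) hS.N1 hS.reac hS.lip hPv hS.sol.mild hS.sol.rng t ht0 x
  rw [hl1] at hst
  have hsl := slope_le hdiff hPvc (x := x) (z := z) (by linarith [hPv.neg t ht0 z]) hz.symm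
    (fun y => hst y z hz.symm)
  have hfin := hPT' t ht1 z (by rw [hz]; exact hulow) (by rw [hz]; exact hu.trans (min_le_left _ _))
  rw [hz] at hfin
  exact hsl.trans hfin

end Pool.Agent.H33.RF.VSL
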